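import Pool.Agent.U436.WT.Main
import Pool.Agent.U436.HP.Strata

/-!
# The quotients of diagonal complete intersections of prime exponent by the kernels of characters
-/

set_option autoImplicit false

namespace Pool.Agent.U436.CH

open Polynomial Finset
open Pool.Agent.U436.HP (wt wt_ne_zero poly_eq_zero pts mem_pts_iff)

variable {k : Type*} [Field k] {N : ℕ}

/-- The points `(P, w)` with `P ≠ 0` of degree at most `d` and `w ^ n = ∏ i, P (p i) ^ a i`. -/
def cyc (d n : ℕ) (p : Fin N → k) (a : Fin N → ℕ) : Set (k[X] × k) :=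
  {z | z.1 ≠ 0 ∧ z.1.natDegree ≤ d ∧ z.2 ^ n = ∏ i, z.1.eval (p i) ^ a i}

/-- `(P, w)` and `(P', w')` are the same point for the weights `1` and `e`. -/
def Same (e : ℕ) (z z' : k[X] × k) : Prop := ∃ t : k, t ≠ 0 ∧ z'.1 = C t * z.1 ∧ z'.2 = t ^ e * z.2

/-- `(P, w)` is the image of the point `x`. -/
def Image (d n : ℕ) (p lam : Fin N → k) (a : Fin N → ℕ) (x : Fin N → k) (z : k[X] × k) : Prop :=
  (z.1 ≠ 0 ∧ z.1.natDegree ≤ d ∧ ∀ i, z.1.eval (p i) = (x i / lam i) ^ n) ∧ z.2 = ∏ i, (x i / lam i) ^ a i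

variable {n m d : ℕ} {p c lam : Fin N → k} {a : Fin N → ℕ}

/-- An `n`-th root of unity is a power with exponent prime to `n` of an `n`-th root of unity. -/
lemma exists_root_pow {ξ : k} (hξ : ξ ^ n = 1) {b : ℕ} (hb : Nat.Coprime b n) (hn : 1 < n) :
    ∃ η : k, η ^ n = 1 ∧ η ^ b = ξ := by
  obtain ⟨r, -, hr⟩ := Nat.exists_mul_mod_eq_one_of_coprime hb hn
  refine ⟨ξ ^ r, by rw [← pow_mul, mul_comm, pow_mul, hξ, one_pow], ?_⟩
  have h1 : r * b = n * (b * r / n) + 1 := by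
    have := Nat.div_add_mod (b * r) n
    rw [hr] at this
    rw [this, mul_comm]
  rw [← pow_mul, h1, pow_add, pow_mul, hξ, one_pow, one_mul, pow_one]

theorem exists_image (hn : n ≠ 0) (hp : Function.Injective p) (hc : ∀ i, c i ≠ 0) (hN : m + d + 1 = N)
    (hlam : ∀ i, c i * lam i ^ n = wt p i) {x : Fin N → k} (hx : x ∈ pts n m p c) :
    ∃ z, Image d n p lam a x z := by
  have hlam0 : ∀ i, lam i ≠ 0 := fun i h => wt_ne_zero hp i (by rw [← hlam i, h, zero_pow hn, mul_zero])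
  obtain ⟨hx0, P, hPd, hP⟩ := (mem_pts_iff hp hN).mp hx
  have hP0 : P ≠ 0 := by
    rintro rfl
    apply hx0
    funext i
    have := hP i
    simp only [eval_zero, mul_zero] at this
    have := (mul_eq_zero.mp this.symm).resolve_left (hc i)
    simpa using pow_eq_zero_iff hn |>.mp this
  refine ⟨(P, ∏ i, (x i / lam i) ^ a i), ⟨hP0, hPd, fun i => ?_⟩, rfl⟩
  rw [div_pow, eq_div_iff (pow_ne_zero _ (hlam0 i))]
  refine mul_left_cancel₀ (hc i) ?_
  rw [← hP i, ← hlam i]; ring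

theorem image_unique (hp : Function.Injective p) (hN : m + d + 1 = N) {x : Fin N → k} {z z' : k[X] × k}
    (h : Image d n p lam a x z) (h' : Image d n p lam a x z') : z = z' := by
  refine Prod.ext ?_ (h.2.trans h'.2.symm)
  rw [← sub_eq_zero]
  refine poly_eq_zero hp ?_ fun i => ?_
  · exact lt_of_le_of_lt (natDegree_sub_le _ _) (max_lt (by have := h.1.2.1; omega) (by have := h'.1.2.1; omega))
  · rw [eval_sub, h.1.2.2, h'.1.2.2, sub_self]

theorem image_mem {x : Fin N → k} {z : k[X] × k} (h : Image d n p lam a x z) : z ∈ cyc d n p a := by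
  refine ⟨h.1.1, h.1.2.1, ?_⟩
  rw [h.2, ← Finset.prod_pow]
  refine Finset.prod_congr rfl fun i _ => ?_
  rw [h.1.2.2, ← pow_mul, ← pow_mul, mul_comm]

/-- Adjusting a vector of roots of unity at one coordinate. -/
lemma adjust (hnp : n.Prime) (ha : ∀ i, a i < n) {ζ : Fin N → k} (hζ : ∀ i, ζ i ^ n = 1) {ρ : k} (hρ : ρ ^ n = 1)
    {i0 : Fin N} (hi0 : a i0 ≠ 0) :
    ∃ ζ' : Fin N → k, (∀ i, ζ' i ^ n = 1) ∧ (∀ i, i ≠ i0 → ζ' i = ζ i) ∧ ∏ i, ζ' i ^ a i = ρ := by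
  classical
  have hcop : Nat.Coprime (a i0) n :=
    (Nat.Coprime.symm ((Nat.Prime.coprime_iff_not_dvd hnp).mpr
      (Nat.not_dvd_of_pos_of_lt (Nat.pos_of_ne_zero hi0) (ha i0))))
  have hζ0 : ∀ i, ζ i ≠ 0 := fun i h => by
    have := hζ i
    rw [h, zero_pow hnp.ne_zero] at this
    exact zero_ne_one this
  set A : k := ∏ i, ζ i ^ a i with hA
  have hA1 : A ^ n = 1 := by
    rw [hA, ← Finset.prod_pow]
    refine Finset.prod_eq_one fun i _ => ?_
    rw [← pow_mul, mul_comm, pow_mul, hζ, one_pow]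
  have hA0 : A ≠ 0 := Finset.prod_ne_zero_iff.mpr fun i _ => pow_ne_zero _ (hζ0 i)
  obtain ⟨η, hη1, hη⟩ := exists_root_pow (ξ := ρ / A) (by rw [div_pow, hρ, hA1, div_one]) hcop hnp.one_lt
  refine ⟨Function.update ζ i0 (η * ζ i0), fun i => ?_, fun i hi => Function.update_of_ne hi _ _, ?_⟩
  · by_cases hi : i = i0
    · subst hi
      rw [Function.update_self, mul_pow, hη1, hζ, one_mul]
    · rw [Function.update_of_ne hi, hζ]
  · have h1 : ∀ i, Function.update ζ i0 (η * ζ i0) i ^ a i = (if i = i0 then ρ / A else 1) * ζ i ^ a i := by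
      intro i
      by_cases hi : i = i0
      · subst hi
        rw [Function.update_self, mul_pow, hη, if_pos rfl]
      · rw [Function.update_of_ne hi, if_neg hi, one_mul]
    rw [Finset.prod_congr rfl fun i _ => h1 i, Finset.prod_mul_distrib, Finset.prod_ite_eq' univ i0,
      if_pos (mem_univ _), ← hA, div_mul_cancel₀ _ hA0]

theorem image_surj [IsAlgClosed k] (hnp : n.Prime) (ha : ∀ i, a i < n) (ha0 : ∃ i, a i ≠ 0)
    (hp : Function.Injective p) (hN : m + d + 1 = N)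
    (hlam : ∀ i, c i * lam i ^ n = wt p i) {z : k[X] × k} (hz : z ∈ cyc d n p a) :
    ∃ x ∈ pts n m p c, Image d n p lam a x z := by
  classical
  obtain ⟨P, w⟩ := z
  obtain ⟨hP0, hPd, hw⟩ := hz
  simp only at hP0 hPd hw
  obtain ⟨i0, hi0⟩ := ha0
  have hlam0 : ∀ i, lam i ≠ 0 := fun i h => wt_ne_zero hp i
    (by rw [← hlam i, h, zero_pow hnp.ne_zero, mul_zero])
  choose y hy using fun i => IsAlgClosed.exists_pow_nat_eq (P.eval (p i)) (Nat.pos_of_ne_zero hnp.ne_zero)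
  have hpow : w ^ n = (∏ i, y i ^ a i) ^ n := by
    rw [hw, ← Finset.prod_pow]
    refine Finset.prod_congr rfl fun i _ => ?_
    rw [← hy, ← pow_mul, ← pow_mul, mul_comm]
  obtain ⟨ρ, hρ1, hρ⟩ : ∃ ρ : k, ρ ^ n = 1 ∧ w = ρ * ∏ i, y i ^ a i := by
    by_cases h0 : ∏ i, y i ^ a i = 0
    · refine ⟨1, one_pow _, ?_⟩
      rw [h0, zero_pow hnp.ne_zero] at hpow
      rw [(pow_eq_zero_iff hnp.ne_zero).mp hpow, h0, mul_zero]
    · refine ⟨w / ∏ i, y i ^ a i, ?_, ?_⟩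
      · rw [div_pow, hpow, div_self (pow_ne_zero _ h0)]
      · rw [div_mul_cancel₀ _ h0]
  obtain ⟨ζ, hζ, -, hζρ⟩ := adjust (ζ := fun _ : Fin N => (1 : k)) hnp ha (fun i => one_pow _) hρ1 hi0
  have hxl : ∀ i, lam i * (ζ i * y i) / lam i = ζ i * y i := fun i => mul_div_cancel_left₀ _ (hlam0 i)
  refine ⟨fun i => lam i * (ζ i * y i), (mem_pts_iff hp hN).mpr ⟨?_, P, hPd, fun i => ?_⟩,
    ⟨hP0, hPd, fun i => ?_⟩, ?_⟩
  · intro h0
    refine hP0 (poly_eq_zero hp (lt_of_le_of_lt hPd (by omega)) fun i => ?_)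
    have h2 := (mul_eq_zero.mp (congrFun h0 i)).resolve_left (hlam0 i)
    rw [← hy i]
    have h3 : (ζ i * y i) ^ n = y i ^ n := by rw [mul_pow, hζ, one_mul]
    rw [← h3, h2, zero_pow hnp.ne_zero]
  · rw [mul_pow, mul_pow, hζ, one_mul, ← mul_assoc, hlam, hy]
  · show P.eval (p i) = (lam i * (ζ i * y i) / lam i) ^ n
    rw [hxl, mul_pow, hζ, one_mul, hy]
  · show w = ∏ i, (lam i * (ζ i * y i) / lam i) ^ a i
    rw [hρ, ← hζρ, ← Finset.prod_mul_distrib]
    refine Finset.prod_congr rfl fun i _ => ?_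
    rw [hxl, mul_pow]

/-- The fibres. -/
theorem image_same_iff [IsAlgClosed k] (hnp : n.Prime) (ha : ∀ i, a i < n) {e : ℕ} (he : ∑ i, a i = n * e)
    (hp : Function.Injective p) (hN : m + d + 1 = N) (hlam0 : ∀ i, lam i ≠ 0) {x x' : Fin N → k}
    {z z' : k[X] × k} (h : Image d n p lam a x z) (h' : Image d n p lam a x' z') :
    Same e z z' ↔ ∃ (t : k) (ζ : Fin N → k), t ≠ 0 ∧ (∀ i, ζ i ^ n = 1) ∧ ∏ i, ζ i ^ a i = 1 ∧
      ∀ i, x' i = t * (ζ i * x i) := by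
  classical
  constructor
  · rintro ⟨s, hs, h1, h2⟩
    obtain ⟨t, ht⟩ := IsAlgClosed.exists_pow_nat_eq s (Nat.pos_of_ne_zero hnp.ne_zero)
    have ht0 : t ≠ 0 := by
      rintro rfl
      rw [zero_pow hnp.ne_zero] at ht
      exact hs ht.symm
    have hpow : ∀ i, x' i ^ n = (t * x i) ^ n := by
      intro i
      have e1 := h'.1.2.2 i
      have e2 := h.1.2.2 i
      rw [h1, eval_mul, eval_C, e2, div_pow, div_pow, ← mul_div_assoc,
        div_left_inj' (pow_ne_zero _ (hlam0 i))] at e1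
      rw [← e1, mul_pow, ht]
    have hz0 : ∀ i, ∃ ζ : k, ζ ^ n = 1 ∧ x' i = t * (ζ * x i) := by
      intro i
      by_cases h0 : x i = 0
      · refine ⟨1, one_pow _, ?_⟩
        have := hpow i
        rw [h0, mul_zero, zero_pow hnp.ne_zero] at this
        rw [(pow_eq_zero_iff hnp.ne_zero).mp this, h0]; ring
      · have h3 : t * x i ≠ 0 := mul_ne_zero ht0 h0
        refine ⟨x' i / (t * x i), ?_, ?_⟩
        · rw [div_pow, hpow i, div_self (pow_ne_zero _ h3)]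
        · field_simp
    choose ζ hζ1 hζ using hz0
    by_cases h0 : ∏ i, (x i / lam i) ^ a i = 0
    · obtain ⟨i0, _, hi0⟩ := Finset.prod_eq_zero_iff.mp h0
      have ha0 : a i0 ≠ 0 := by
        intro h5
        rw [h5, pow_zero] at hi0
        exact one_ne_zero hi0
      have hx0 : x i0 = 0 := by
        have := (pow_eq_zero_iff ha0).mp hi0
        exact (div_eq_zero_iff.mp this).resolve_right (hlam0 i0)
      obtain ⟨ζ', h3, h4, h5⟩ := adjust hnp ha hζ1 (one_pow n) ha0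
      refine ⟨t, ζ', ht0, h3, h5, fun i => ?_⟩
      by_cases hi : i = i0
      · rw [hi, hζ i0, hx0]; ring
      · rw [h4 i hi, hζ i]
    · refine ⟨t, ζ, ht0, hζ1, ?_, hζ⟩
      have e1 : z'.2 = (∏ i, ζ i ^ a i) * (t ^ (n * e) * ∏ i, (x i / lam i) ^ a i) := by
        rw [h'.2, ← he, ← Finset.prod_pow_eq_pow_sum, ← Finset.prod_mul_distrib, ← Finset.prod_mul_distrib]
        refine Finset.prod_congr rfl fun i _ => ?_
        rw [hζ i, ← mul_pow, ← mul_pow]
        congr 1; ring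
      have e2 : z'.2 = t ^ (n * e) * ∏ i, (x i / lam i) ^ a i := by
        rw [h2, h.2, pow_mul, ht]
      have h6 : t ^ (n * e) * ∏ i, (x i / lam i) ^ a i ≠ 0 := mul_ne_zero (pow_ne_zero _ ht0) h0
      refine mul_right_cancel₀ h6 ?_
      rw [← e1, one_mul, e2]
  · rintro ⟨t, ζ, ht, hζ, hζa, hx⟩
    refine ⟨t ^ n, pow_ne_zero _ ht, ?_, ?_⟩
    · rw [← sub_eq_zero]
      refine poly_eq_zero hp ?_ fun i => ?_
      · refine lt_of_le_of_lt (natDegree_sub_le _ _) (max_lt (by have := h'.1.2.1; omega) ?_)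
        rw [natDegree_C_mul (pow_ne_zero _ ht)]
        have := h.1.2.1; omega
      · rw [eval_sub, eval_mul, eval_C, h'.1.2.2, h.1.2.2, hx i]
        have e1 : t * (ζ i * x i) / lam i = t * ζ i * (x i / lam i) := by ring
        rw [e1, mul_pow, mul_pow, hζ, mul_one, sub_self]
    · rw [h'.2, h.2, ← pow_mul, ← he]
      calc ∏ i, (x' i / lam i) ^ a i = ∏ i, (ζ i ^ a i * (t ^ a i * (x i / lam i) ^ a i)) := by
            refine Finset.prod_congr rfl fun i _ => ?_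
            rw [hx i, ← mul_pow, ← mul_pow]
            congr 1; ring
        _ = t ^ (∑ i, a i) * ∏ i, (x i / lam i) ^ a i := by
            rw [Finset.prod_mul_distrib, hζa, one_mul, Finset.prod_mul_distrib, Finset.prod_pow_eq_pow_sum]

/-- The product map. -/
noncomputable def mulMap (u : Fin d → k[X] × k) : k[X] × k := (∏ j, (u j).1, ∏ j, (u j).2)

lemma mem_cyc_iff {z : k[X] × k} : z ∈ cyc d n p a ↔
    (z.1, fun _ : Fin 1 => z.2) ∈ KC.cover d p (fun _ => a) (fun _ : Fin 1 => n) := by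
  unfold cyc KC.cover
  simp

theorem mulMap_mem {u : Fin d → k[X] × k} (hu : ∀ j, u j ∈ cyc 1 n p a) : mulMap u ∈ cyc d n p a := by
  rw [mem_cyc_iff]
  exact KC.prodMap_mem (u := fun j => ((u j).1, fun _ : Fin 1 => (u j).2)) fun j => mem_cyc_iff.mp (hu j)

theorem mulMap_surj [IsAlgClosed k] (hd : 1 ≤ d) (hn : n ≠ 0) {z : k[X] × k} (hz : z ∈ cyc d n p a) :
    ∃ u : Fin d → k[X] × k, (∀ j, u j ∈ cyc 1 n p a) ∧ mulMap u = z := by
  obtain ⟨u, hu, h⟩ := KC.prodMap_surj hd (fun _ => hn) (mem_cyc_iff.mp hz)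
  have h1 : (KC.prodMap u).1 = z.1 := by rw [h]
  have h2 : (KC.prodMap u).2 0 = z.2 := by rw [h]
  refine ⟨fun j => ((u j).1, (u j).2 0), fun j => ?_, Prod.ext h1 h2⟩
  · rw [mem_cyc_iff]
    convert hu j using 1
    refine Prod.ext rfl (funext fun i => ?_)
    rw [Fin.fin_one_eq_zero i]

theorem mulMap_same_iff [IsAlgClosed k] (hn : n ≠ 0) {e : ℕ} (he : ∑ i, a i = n * e)
    {u u' : Fin d → k[X] × k} (hu : ∀ j, u j ∈ cyc 1 n p a) (hu' : ∀ j, u' j ∈ cyc 1 n p a) :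
    Same e (mulMap u) (mulMap u') ↔ ∃ (σ : Equiv.Perm (Fin d)) (ζ : Fin d → k),
      (∀ j, ζ j ^ n = 1) ∧ ∏ j, ζ j = 1 ∧ ∀ j, Same e ((u (σ j)).1, ζ j * (u (σ j)).2) (u' j) := by
  have key := KC.prodMap_eq_iff (r := 1) (A := fun _ => a) (n := fun _ => n) (fun _ => hn) one_ne_zero
    (E := fun _ => e) (fun _ => by rw [one_mul, he])
    (fun j => mem_cyc_iff.mp (hu j)) (fun j => mem_cyc_iff.mp (hu' j))
  constructor
  · rintro ⟨t, ht, h1, h2⟩
    obtain ⟨σ, ζ, τ, κ, h3, h4, h5, h6, h7⟩ := key.mp ⟨t, ht, by rw [pow_one]; exact h1, fun _ => h2⟩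
    refine ⟨σ, fun j => ζ j 0, fun j => h3 j 0, ?_, fun j => ⟨κ j, h6 j, ?_, (h7 j).2 0⟩⟩
    · rw [h5 0]
      rw [pow_one] at h4
      rw [h4, one_pow]
    · have := (h7 j).1
      rwa [pow_one] at this
  · rintro ⟨σ, ζ, h3, h4, h5⟩
    choose κ h6 h7 h8 using h5
    obtain ⟨t, ht, h1, h2⟩ := key.mpr ⟨σ, fun j _ => ζ j, 1, κ, fun j _ => h3 j, one_pow _,
      fun _ => by rw [h4, one_pow], h6, fun j => ⟨by rw [pow_one]; exact h7 j, fun _ => h8 j⟩⟩
    exact ⟨t, ht, by rw [pow_one] at h1; exact h1, h2 0⟩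

end Pool.Agent.U436.CH
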